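import Pool.Agent.Q130.PV.DlogMain

set_option autoImplicit false

/-! # Prime gaps of record length around the discrete logarithms of sums

Let `R(N) = log N (log₂ N)² log₄ N / (log₃ N)²`, the order of the largest known prime gaps, and
`0 < ε ≤ 1`. There is `κ > 0` such that for every large prime power `q`, every field `K` with `q`
elements, every generator `γ` of its multiplicative group, ARBITRARY sets `A`, `B` of elements of
`K`, ARBITRARY functions `f`, `g` without zeros on `K` and every interval `J` of integers in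
`[0, q - 1)` with `|A| |B| |J|² ≥ q ^ (3 + ε)`: for at least `q ^ (- 1 - ε) |A| |B| |J|` pairs
`(a, b)` in `A × B` the discrete logarithm of `(a + b) f(a) g(b)` to the base `γ` lies in `J` and no
prime is within `κ R(q)` of it. In particular (`f = g = 1`, `J` everything) this is so for the
discrete logarithm of some sum `a + b` as soon as `|A| |B| ≥ q ^ (1 + ε)`. -/

namespace Pool.Agent.Results.MP_7ba156_nt.DiscreteLogarithms

open Finset

/-- the order of the largest known prime gaps -/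
noncomputable def R (N : ℝ) : ℝ :=
  Real.log N * (Real.log (Real.log N)) ^ 2 * Real.log (Real.log (Real.log (Real.log N))) /
    (Real.log (Real.log (Real.log N))) ^ 2

/-- no prime is within `D` of `v` -/
def Far (D : ℝ) (v : ℕ) : Prop := ∀ r : ℕ, r.Prime → D < |(r : ℝ) - v|

open scoped Classical in
theorem result (ε : ℝ) (h0 : 0 < ε) (h1 : ε ≤ 1) :
    ∃ κ : ℝ, 0 < κ ∧ ∃ Q₀ : ℕ, ∀ q : ℕ, Q₀ ≤ q →
      ∀ (K : Type) [Field K] [Fintype K], Fintype.card K = q →
      ∀ γ : Kˣ, (∀ x : Kˣ, x ∈ Subgroup.zpowers γ) →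
      ∀ (A B : Finset K) (f g : K → Kˣ) (u L : ℕ), u + L ≤ q - 1 →
      (q : ℝ) ^ (3 + ε) ≤ (A.card : ℝ) * B.card * (L : ℝ) ^ 2 →
      (q : ℝ) ^ (-1 - ε) * (A.card * B.card * L) ≤
        (((A ×ˢ B).filter (fun w : K × K => ∃ n ∈ Ico u (u + L),
          (w.1 + w.2) * f w.1 * g w.2 = (γ : K) ^ n ∧ Far (κ * R q) n)).card : ℝ) := by
  obtain ⟨κ, hκ, hq⟩ := Pool.Agent.Q130.PV.dlog_main ε h0 h1
  obtain ⟨Q₀, hQ₀⟩ := Filter.eventually_atTop.1 hq
  refine ⟨κ, hκ, Q₀, fun q hq K _ _ hK γ hγ A B f g u L hu hAB =>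
    (hQ₀ q hq K hK γ hγ A B f g u L hu hAB).trans ?_⟩
  have : ((A ×ˢ B).filter (fun w : K × K => ∃ n : ℕ, (u ≤ n ∧ n < u + L) ∧
          (w.1 + w.2) * f w.1 * g w.2 = (γ : K) ^ n ∧
          ∀ r : ℕ, r.Prime → κ * Pool.Agent.W147.PS.ff q < |(r : ℝ) - n|)) ⊆
      ((A ×ˢ B).filter (fun w : K × K => ∃ n ∈ Ico u (u + L),
          (w.1 + w.2) * f w.1 * g w.2 = (γ : K) ^ n ∧ Far (κ * R q) n)) := by
    intro w hw
    rw [mem_filter] at hw ⊢
    obtain ⟨a1, n, a2, a3, a4⟩ := hw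
    exact ⟨a1, n, mem_Ico.2 a2, a3, a4⟩
  exact_mod_cast card_le_card this

end Pool.Agent.Results.MP_7ba156_nt.DiscreteLogarithms
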