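import Pool.Agent.Q120.SP.Log

/-!
# Pintz's question and the information in the primes

We consider arbitrary random sets `A` of integers whose law on the dyadic block `[2 ^ k, 2 ^ (k + 1))` has
relative entropy at most `d k` (nats) with respect to Cramér's model.
-/

set_option autoImplicit false

namespace Pool.Agent.Results.MP_7ba156_nt.EntropyThreshold

open Finset MeasureTheory Filter Pool.Agent.Q120.ET Pool.Agent.Q120.SP
open scoped Topology

/-- `S` meets `(x, x + (log x) ^ t]` for all large `x`. -/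
def Hits (S : Set ℕ) (t : ℝ) : Prop := ∀ᶠ x : ℕ in atTop, ∃ n ∈ S, x < n ∧ (n : ℝ) ≤ x + Real.log x ^ t

/-- The gaps of `S` at `x` are `O ((log x) ^ t)`. -/
def Big (S : Set ℕ) (t : ℝ) : Prop :=
  ∃ C : ℝ, ∀ᶠ x : ℕ in atTop, ∃ n ∈ S, x < n ∧ (n : ℝ) ≤ x + C * Real.log x ^ t

/-- The statement of Q1 for `S`. -/
def Pintz (S : Set ℕ) : Prop := ∀ t : ℝ, 2 < t → Big S t

theorem Hits.big {S : Set ℕ} {t : ℝ} (h : Hits S t) : Big S t := by
  refine ⟨1, ?_⟩
  filter_upwards [h] with x hx
  obtain ⟨n, h1, h2, h3⟩ := hx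
  exact ⟨n, h1, h2, by rw [one_mul]; exact h3⟩

theorem some_not_big {d : ℕ → ℝ} (hd : ∀ k, 0 ≤ d k) {t : ℝ} (ht : 2 < t)
    (hns : ¬ Summable fun k : ℕ => d k * (k : ℝ) ^ (1 - t)) : SomeModel d (fun S => ¬ Big S t) := by
  have hlog2 : 0 < Real.log 2 := Real.log_pos (by norm_num)
  have hns' : ¬ Summable (fun k : ℕ => d k * k / Real.log (2 ^ k) ^ t) := by
    intro hs
    apply hns
    rw [← summable_mul_left_iff (a := (Real.log 2 ^ t)⁻¹) (by positivity)]
    refine (summable_congr_atTop ?_).2 hs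
    filter_upwards [eventually_ge_atTop 1] with k hk
    have hk1 : (0 : ℝ) < k := by exact_mod_cast hk
    rw [Real.log_pow, Real.mul_rpow hk1.le hlog2.le, Real.rpow_sub hk1, Real.rpow_one]
    field_simp
  refine SomeModel.mono (someModel_of (gapFunction_rpow ht) hd hns') (fun S hS => ?_)
  rintro ⟨C, hC⟩
  refine not_bound_of_unbounded (g := fun y => C * y ^ t) (D := |C| * 2 ^ t) hS ?_ hC ?_
  · filter_upwards [eventually_ge_atTop 1] with k hk x hx
    have h1 := log_le_log_two_pow hx
    have h2 : 0 ≤ Real.log (x : ℝ) := Real.log_natCast_nonneg x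
    have h5 : 0 ≤ Real.log ((2 : ℝ) ^ k) := by rw [Real.log_pow]; positivity
    have h3 : Real.log ((2 : ℝ) ^ (k + 1)) ≤ 2 * Real.log (2 ^ k) := by
      rw [Real.log_pow, Real.log_pow]
      push_cast
      have : (1 : ℝ) ≤ k := by exact_mod_cast hk
      nlinarith
    rw [mul_assoc, ← Real.mul_rpow (by norm_num) h5]
    have h6 : Real.log (x : ℝ) ^ t ≤ (2 * Real.log (2 ^ k)) ^ t := Real.rpow_le_rpow h2 (h1.trans h3) (by linarith)
    calc C * Real.log (x : ℝ) ^ t ≤ |C| * Real.log (x : ℝ) ^ t :=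
          mul_le_mul_of_nonneg_right (le_abs_self C) (Real.rpow_nonneg h2 t)
      _ ≤ |C| * (2 * Real.log (2 ^ k)) ^ t := mul_le_mul_of_nonneg_left h6 (abs_nonneg C)
  · filter_upwards [eventually_ge_atTop 2] with k hk
    rw [Real.log_pow]
    have h1 : (2 : ℝ) ≤ k := by exact_mod_cast hk
    have h2 := Real.log_two_gt_d9
    exact Real.one_le_rpow (by nlinarith) (by linarith)

theorem tfae {d : ℕ → ℝ} (hd : ∀ k, 0 ≤ d k) {t : ℝ} (ht : 2 < t) :
    List.TFAE [Summable fun k : ℕ => d k * (k : ℝ) ^ (1 - t), AllModels d (fun S => Hits S t),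
      AllModels d (fun S => Big S t)] := by
  tfae_have 1 → 2 := (polylog hd ht).1
  tfae_have 2 → 3 := by
    intro h Ω _ μ _ A hA hdd
    filter_upwards [h Ω μ A hA hdd] with ω hω
    exact Hits.big hω
  tfae_have 3 → 1 := by
    intro h
    by_contra hns
    exact not_allModels_of (some_not_big hd ht hns) (fun S hS hS2 => hS hS2) h
  tfae_finish

/-- (1) For every exponent `t > 2` and all budgets `d k ≥ 0`: all random sets whose relative entropies are at most `d k` meet
almost surely all intervals `(x, x + (log x) ^ t]`, `x` large, if and only if their gaps are almost surely `O ((log x) ^ t)`, if and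
only if `∑ d k * k ^ (1 - t) < ∞`; otherwise the gaps of some such set are almost surely not `O ((log x) ^ t)`.
(2) The statement of Q1 holds almost surely for all these sets if and only if `∑ d k * k ^ (1 - t) < ∞` for all `t > 2`.
(3) One nat for each octave (`d k = 1`) separates Q1 from Cramér's bound: Q1 holds almost surely for all these sets, but Cramér's
bound fails for some of them. -/
theorem result :
    (∀ d : ℕ → ℝ, (∀ k, 0 ≤ d k) → ∀ t : ℝ, 2 < t →
      List.TFAE [Summable fun k : ℕ => d k * (k : ℝ) ^ (1 - t), AllModels d (fun S => Hits S t),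
        AllModels d (fun S => Big S t)] ∧
      ((¬ Summable fun k : ℕ => d k * (k : ℝ) ^ (1 - t)) → SomeModel d (fun S => ¬ Big S t))) ∧
    (∀ d : ℕ → ℝ, (∀ k, 0 ≤ d k) →
      ((∀ t : ℝ, 2 < t → Summable fun k : ℕ => d k * (k : ℝ) ^ (1 - t)) ↔ AllModels d Pintz)) ∧
    (AllModels (fun _ => 1) Pintz ∧ ¬ AllModels (fun _ => 1) CramerBound) := by
  have hmain : ∀ d : ℕ → ℝ, (∀ k, 0 ≤ d k) →
      ((∀ t : ℝ, 2 < t → Summable fun k : ℕ => d k * (k : ℝ) ^ (1 - t)) ↔ AllModels d Pintz) := by
    intro d hd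
    constructor
    · intro hs Ω _ μ _ A hA hdd
      have h1 : ∀ j : ℕ, ∀ᵐ ω ∂μ, Hits (A ω) (2 + 1 / ((j : ℝ) + 1)) := by
        intro j
        have hj : (0 : ℝ) < 1 / ((j : ℝ) + 1) := by positivity
        have h2t : 2 < 2 + 1 / ((j : ℝ) + 1) := by linarith
        have h5 : AllModels d (fun S => Hits S (2 + 1 / ((j : ℝ) + 1))) := ((tfae hd h2t).out 0 1).1 (hs _ h2t)
        exact h5 Ω μ A hA hdd
      filter_upwards [ae_all_iff.2 h1] with ω hω
      intro t ht
      obtain ⟨j, hj⟩ := exists_nat_one_div_lt (show (0 : ℝ) < t - 2 by linarith)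
      refine ⟨1, ?_⟩
      filter_upwards [hω j, eventually_ge_atTop 3] with x hx hx3
      obtain ⟨n, h2, h3, h4⟩ := hx
      refine ⟨n, h2, h3, h4.trans ?_⟩
      have hlog : 1 ≤ Real.log x := by
        have h5 : (3 : ℝ) ≤ x := by exact_mod_cast hx3
        rw [Real.le_log_iff_exp_le (by linarith)]
        have := Real.exp_one_lt_d9
        linarith
      have h6 : Real.log (x : ℝ) ^ (2 + 1 / ((j : ℝ) + 1)) ≤ Real.log (x : ℝ) ^ t :=
        Real.rpow_le_rpow_of_exponent_le hlog (by linarith)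
      linarith
    · intro h t ht
      refine ((tfae hd ht).out 0 2).2 ?_
      intro Ω _ μ _ A hA hdd
      filter_upwards [h Ω μ A hA hdd] with ω hω
      exact hω t ht
  refine ⟨fun d hd t ht => ⟨tfae hd ht, fun hns => some_not_big hd ht hns⟩, hmain, ?_, ?_⟩
  · rw [← hmain _ (fun _ => zero_le_one)]
    intro t ht
    simp only [one_mul]
    exact Real.summable_nat_rpow.2 (by linarith)
  · refine not_allModels_bound (fun _ => zero_le_one) ?_
    exact Real.not_summable_one_div_natCast

end Pool.Agent.Results.MP_7ba156_nt.EntropyThreshold
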