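import Pool.Agent.Q120.MGaps.Level
import Pool.Agent.Q120.SI.Entb
import Pool.Agent.Q38.SI.CEL
import Pool.Agent.Q252.SI.DET
import Pool.Agent.Q151.SI.Cnt
import Pool.Agent.Q151.SI.Upb
import Pool.Agent.Q151.SI.Detb
import Pool.Agent.Q151.SI.Mixb
import Pool.Agent.Q151.SI.Tlt
import Pool.Agent.Q299.RZ.Tail
import Pool.Agent.Q299.RZ.Kl
import Pool.Agent.Q47.MG.MGL
import Pool.Agent.Q47.MG.MGU
import Pool.Agent.Q47.MG.MGS
import Pool.Agent.Q47.MG.MGC
import Pool.Agent.Q47.MG.MGB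
import Pool.Agent.Q47.MG.MGD

/-!
# The moments of the gaps, for all random sets near Cramér's model

`A` is any random set of integers, `relEntropy μ A (block k)` the relative entropy (nats) of the law of `A ∩ [2 ^ k, 2 ^ (k + 1))` with
respect to Cramér's model. `AllModels d E`: all random sets with relative entropies at most `d k` for all large `k` almost surely have the
property `E`; `AllLevel δ E`: all random sets with relative entropies at most `2 ^ ((δ + o(1)) k)` almost surely have it.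
-/

set_option autoImplicit false

namespace Pool.Agent.Results.MP_7ba156_nt.GapMomentsAtAllLevels

open Filter Pool.Agent.Q120.SP Pool.Agent.Q120.LG Pool.Agent.Q120.MG

theorem jobs : MJobs where
  si := {
    tail := Q299.RZ.t_TAIL
    kl := Q299.RZ.t_KL
    entb := Pool.Agent.Q120.SI.entb
    cel := Pool.Agent.Q38.SI.t_CEL
    det := Pool.Agent.Q252.SI.t_DET
    cnt := Pool.Agent.Q151.SI.t_CNT
    upb := Pool.Agent.Q151.SI.t_UPB
    detb := Pool.Agent.Q151.SI.t_DETB
    mixb := Pool.Agent.Q151.SI.t_MIXB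
    tlt := Pool.Agent.Q151.SI.t_TLT }
  mgl := Pool.Agent.Q47.MG.t_MGL
  mgu := Pool.Agent.Q47.MG.t_MGU
  mgs := Pool.Agent.Q47.MG.t_MGS
  mgc := Pool.Agent.Q47.MG.t_MGC
  mgb := Pool.Agent.Q47.MG.t_MGB
  mgd := Pool.Agent.Q47.MG.t_MGD

/-- (1) For every sequence `d ≥ 0` the gaps of all random sets with relative entropies at most `d k` obey the exponential law iff
`∑ d k * k / 2 ^ k < ∞`, and for every real `q > 1` their `q`-th moment is asymptotic to `Γ(q + 1) x log ^ (q - 1) x` iff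
`∑ d k * (k / 2 ^ k) ^ (1 / q) < ∞`. (2) At the level `δ` the exponential law holds for all iff `δ < 1`, the `q`-th moment iff `q δ < 1`;
(3) for `δ < 1` the sums of the `q`-th powers of the gaps up to `x` are at most `x ^ (θ + o(1))` for all random sets of level `δ` iff
`max 1 (q δ) ≤ θ`. -/
theorem result :
    (∀ d : ℕ → ℝ, (∀ k, 0 ≤ d k) →
      (AllModels d GapLaw ↔ Summable (fun k : ℕ => d k * k / 2 ^ k)) ∧
      ∀ q : ℝ, 1 < q → (AllModels d (Mom q) ↔ Summable (fun k : ℕ => d k * ((k : ℝ) / 2 ^ k) ^ (1 / q)))) ∧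
    (∀ δ : ℝ, 0 ≤ δ → (AllLevel δ GapLaw ↔ δ < 1) ∧ ∀ q : ℝ, 1 < q → (AllLevel δ (Mom q) ↔ q * δ < 1)) ∧
    (∀ δ q θ : ℝ, 0 ≤ δ → δ < 1 → 1 < q → (AllLevel δ (MomUp q θ) ↔ max 1 (q * δ) ≤ θ)) :=
  main jobs

end Pool.Agent.Results.MP_7ba156_nt.GapMomentsAtAllLevels
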