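import Pool.Agent.Q120.CL.P1
import Pool.Agent.Q120.CL.C7
import Pool.Agent.Q210.MG.Low

/-!
# Maximal gaps in the sieved models of the primes whose level is a power of the logarithm

`z : ℕ → ℕ` gives the level: on the block `2 ^ k ≤ n < 2 ^ (k + 1)` the random set contains each `n` without prime
factors `p < z k` independently with probability `1 / (V log n)` (at most `1`), `V = ∏_{p < z k} (1 - 1/p)`, and no other `n`.

`LL S` is the upper limit of `(p_(n+1) - p_n) / (log p_n)²` over the elements `p_n` of `S`.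
-/

set_option autoImplicit false

namespace Pool.Agent.Results.MP_7ba156_nt.LevelsUpToLogarithm

open Finset MeasureTheory Filter Pool.Agent.Q120.MG Pool.Agent.Q120.GM Pool.Agent.Q120.CL
open scoped Topology

variable {Ω : Type*} [MeasurableSpace Ω] {μ : Measure Ω} [IsProbabilityMeasure μ] {A : Ω → Set ℕ} {z : ℕ → ℕ}

/-- The `n`-th element of `S`. -/
noncomputable def el (S : Set ℕ) (n : ℕ) : ℝ := ((Nat.nth (· ∈ S) n : ℕ) : ℝ)

/-- The question for the set `S` in place of the primes. -/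
def Q1 (S : Set ℕ) : Prop := ∀ t : ℝ, 2 < t → ∃ C : ℝ, ∀ᶠ n : ℕ in atTop, el S (n + 1) - el S n ≤ C * Real.log (el S n) ^ t

/-- From the blocks to the gaps. -/
theorem gaps {S : Set ℕ} {T t : ℝ} (hT : 0 < T) (hTt : T < t) (h : ∀ᶠ k : ℕ in atTop, ∀ n : ℕ, 2 ^ k ≤ n → n < 2 ^ (k + 1) →
      ∃ m ∈ S, n < m ∧ (m : ℝ) ≤ n + 4 * 2 ^ T * (k : ℝ) ^ T) :
    S.Infinite ∧ ∀ᶠ n : ℕ in atTop, el S (n + 1) - el S n ≤ Real.log (el S n) ^ t := by
  have hinf : S.Infinite := by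
    rw [Set.infinite_iff_exists_gt]
    intro a
    obtain ⟨K, hK⟩ := eventually_atTop.1 h
    obtain ⟨k, hk⟩ : ∃ k, k = max K a := ⟨_, rfl⟩
    obtain ⟨m, hm, h2, _⟩ := hK k (by rw [hk]; exact le_max_left _ _) (2 ^ k) le_rfl (Nat.pow_lt_pow_right (by norm_num) (by omega))
    refine ⟨m, hm, ?_⟩
    have h3 : k < 2 ^ k := Nat.lt_two_pow_self
    have h4 : a ≤ k := by rw [hk]; exact le_max_right _ _
    omega
  refine ⟨hinf, ?_⟩
  have hmono : StrictMono (Nat.nth (· ∈ S)) := Nat.nth_strictMono hinf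
  have hk : Tendsto (fun n : ℕ => Nat.log 2 (Nat.nth (· ∈ S) n)) atTop atTop := by
    rw [tendsto_atTop]
    intro K
    filter_upwards [hmono.tendsto_atTop.eventually_ge_atTop (2 ^ K)] with n hn
    exact Nat.le_log_of_pow_le (by norm_num) hn
  have hl2 : 0 < Real.log 2 := Real.log_pos (by norm_num)
  have hbig : ∀ᶠ k : ℕ in atTop, 4 * 2 ^ T * (k : ℝ) ^ T ≤ ((k : ℝ) * Real.log 2) ^ t := long_window (by linarith) hTt _
  filter_upwards [hk.eventually h, hk.eventually hbig, hk.eventually (eventually_ge_atTop 1)] with n h1 h2 h3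
  obtain ⟨p, hp⟩ : ∃ p, p = Nat.nth (· ∈ S) n := ⟨_, rfl⟩
  obtain ⟨k, hkd⟩ : ∃ k, k = Nat.log 2 p := ⟨_, rfl⟩
  rw [← hp, ← hkd] at h1 h2 h3
  have hp0 : p ≠ 0 := by
    intro h0
    rw [h0] at hkd
    simp at hkd
    omega
  have e1 : 2 ^ k ≤ p := by rw [hkd]; exact Nat.pow_log_le_self 2 hp0
  have e2 : p < 2 ^ (k + 1) := by rw [hkd]; exact Nat.lt_pow_succ_log_self (by norm_num) _
  obtain ⟨m, hm, hm1, hm2⟩ := h1 p e1 e2
  have e3 : Nat.nth (· ∈ S) (n + 1) ≤ m := nth_next hinf hm (by rw [← hp]; exact hm1)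
  have e4 : el S (n + 1) ≤ m := by
    unfold el
    exact_mod_cast e3
  have e5 : el S n = p := by
    unfold el
    rw [hp]
  rw [e5]
  have e6 := (log_block e1 e2).2.1
  have e7 : ((k : ℝ) * Real.log 2) ^ t ≤ Real.log p ^ t := Real.rpow_le_rpow (by positivity) e6 (by linarith)
  linarith

theorem HV_real {α : ℝ} (hz : ∀ᶠ k : ℕ in atTop, (z k : ℝ) ≤ (k : ℝ) ^ α) : ∃ C : ℕ, 0 < C ∧ ∀ᶠ k : ℕ in atTop, z k ≤ k ^ C := by
  obtain ⟨C, hC⟩ := exists_nat_ge α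
  refine ⟨C + 1, Nat.succ_pos C, ?_⟩
  filter_upwards [hz, eventually_ge_atTop 1] with k h1 h2
  have hk1 : (1 : ℝ) ≤ k := by exact_mod_cast h2
  have h3 : (k : ℝ) ^ α ≤ (k : ℝ) ^ (C : ℝ) := Real.rpow_le_rpow_of_exponent_le hk1 hC
  rw [Real.rpow_natCast] at h3
  have h4 : (k : ℝ) ^ C ≤ (k : ℝ) ^ (C + 1) := pow_le_pow_right₀ hk1 (by omega)
  have h5 : (z k : ℝ) ≤ (k : ℝ) ^ (C + 1) := by linarith
  exact_mod_cast h5

/-- The levels up to `(log x) ^ α`. -/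
theorem levels (hA : IsModel μ (pr z) A) {α : ℝ} (hα : 1 ≤ α) (hz : ∀ᶠ k : ℕ in atTop, (z k : ℝ) ≤ (k : ℝ) ^ α) :
    ∀ᵐ ω ∂μ, (A ω).Infinite ∧ ∀ t : ℝ, 2 * α < t → ∀ᶠ n : ℕ in atTop, el (A ω) (n + 1) - el (A ω) n ≤ Real.log (el (A ω) n) ^ t := by
  obtain ⟨C, hC, hzC⟩ := HV_real hz
  have hHV := HV_of_pow hC hzC
  have h1 : ∀ᵐ ω ∂μ, ∀ j : ℕ, ∀ᶠ k : ℕ in atTop, ∀ n : ℕ, 2 ^ k ≤ n → n < 2 ^ (k + 1) →
      ∃ m ∈ A ω, n < m ∧ (m : ℝ) ≤ n + 4 * 2 ^ (2 * α + 1 / ((j : ℝ) + 1)) * (k : ℝ) ^ (2 * α + 1 / ((j : ℝ) + 1)) := by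
    rw [ae_all_iff]
    intro j
    refine hit Pool.Agent.Q210.MG.low hA hα ?_ hz hHV
    have : 0 < 1 / ((j : ℝ) + 1) := by positivity
    linarith
  filter_upwards [h1] with ω hω
  refine ⟨(gaps (T := 2 * α + 1 / (((0 : ℕ) : ℝ) + 1)) (t := 2 * α + 2) (by positivity) (by norm_num) (hω 0)).1, fun t ht => ?_⟩
  obtain ⟨j, hj⟩ := exists_nat_gt (1 / (t - 2 * α))
  refine (gaps (T := 2 * α + 1 / ((j : ℝ) + 1)) (t := t) (by positivity) ?_ (hω j)).2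
  have h2 : 1 / ((j : ℝ) + 1) < t - 2 * α := by
    rw [div_lt_iff₀ (by positivity)]
    rw [div_lt_iff₀ (by linarith)] at hj
    nlinarith
  linarith

/-- Gaps of the size `(log p)²` at all levels. -/
theorem long (hA : IsModel μ (pr z) A) {α : ℝ} (hα : 1 ≤ α) (hz : ∀ᶠ k : ℕ in atTop, (z k : ℝ) ≤ (k : ℝ) ^ α) :
    ∀ᵐ ω ∂μ, 1 ≤ LL (A ω) := by
  obtain ⟨C, hC, hzC⟩ := HV_real hz
  have h1 : ∀ᵐ ω ∂μ, ∀ j : ℕ, ∀ᶠ k : ℕ in atTop, ∃ n : ℕ, 2 ^ k ≤ n ∧ n + ⌊(1 - 1 / ((j : ℝ) + 2)) * bud k⌋₊ < 2 ^ (k + 1) ∧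
      ∀ m ∈ A ω, n < m → n + ⌊(1 - 1 / ((j : ℝ) + 2)) * bud k⌋₊ < m := by
    rw [ae_all_iff]
    intro j
    refine lower_all hA hC hzC (by positivity) ?_
    rw [div_lt_one (by positivity)]
    have : (0 : ℝ) ≤ j := Nat.cast_nonneg j
    linarith
  filter_upwards [h1, levels hA hα hz] with ω hω hω2
  rw [← EReal.ge_of_forall_gt_iff_ge]
  intro c hc
  have hc1 : c < 1 := by exact_mod_cast hc
  rcases le_or_gt c 0 with h0 | h0
  · have h2 : (c : EReal) ≤ ((0 : ℝ) : EReal) := by exact_mod_cast h0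
    refine h2.trans ?_
    refine LL_ge hω2.1 (c := 0) (t := fun k => ((⌊(1 - 1 / (((0 : ℕ) : ℝ) + 2)) * bud k⌋₊ : ℕ) : ℝ)) ?_ le_rfl
    refine Eventually.frequently ?_
    filter_upwards [hω 0] with k hk
    refine ⟨by rw [zero_mul]; positivity, ?_⟩
    obtain ⟨n, hn1, hn2, hn3⟩ := hk
    exact ⟨n, hn1, by omega, fun m hm hnm => by exact_mod_cast hn3 m hm hnm⟩
  · obtain ⟨j, hj⟩ := exists_nat_gt (2 / (1 - c))
    refine LL_ge hω2.1 (c := c) (t := fun k => ((⌊(1 - 1 / ((j : ℝ) + 2)) * bud k⌋₊ : ℕ) : ℝ)) ?_ h0.le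
    refine Eventually.frequently ?_
    have hj2 : 1 / ((j : ℝ) + 2) ≤ (1 - c) / 2 := by
      rw [div_lt_iff₀ (by linarith)] at hj
      rw [div_le_div_iff₀ (by positivity) (by norm_num)]
      nlinarith
    have hratio : ∀ᶠ k : ℕ in atTop, c * (((k : ℝ) + 1) * Real.log 2) ^ 2 + 1 ≤ (1 - (1 - c) / 2) * bud k := by
      have hl2 : 0 < Real.log 2 := Real.log_pos (by norm_num)
      filter_upwards [hcast.eventually_ge_atTop (16 / (1 - c)), bud_tendsto.eventually_ge_atTop (4 / (1 - c)), eventually_ge_atTop 1]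
        with k g1 g2 g3
      have hk1 : (1 : ℝ) ≤ k := by exact_mod_cast g3
      have h1c : 0 < 1 - c := by linarith
      rw [div_le_iff₀ h1c] at g1 g2
      have e1 : (((k : ℝ) + 1) * Real.log 2) ^ 2 = bud k + (2 * k + 1) * Real.log 2 ^ 2 := by
        unfold bud
        ring
      have e2 : (2 * (k : ℝ) + 1) * Real.log 2 ^ 2 ≤ (1 - c) / 4 * bud k := by
        unfold bud
        have e3 : (2 * (k : ℝ) + 1) ≤ (1 - c) / 4 * (k : ℝ) ^ 2 := by nlinarith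
        calc (2 * (k : ℝ) + 1) * Real.log 2 ^ 2 ≤ (1 - c) / 4 * (k : ℝ) ^ 2 * Real.log 2 ^ 2 :=
              mul_le_mul_of_nonneg_right e3 (by positivity)
          _ = (1 - c) / 4 * ((k : ℝ) * Real.log 2) ^ 2 := by ring
      rw [e1]
      have hb := bud_nonneg k
      nlinarith
    filter_upwards [hω j, hratio] with k hk hr
    obtain ⟨n, hn1, hn2, hn3⟩ := hk
    refine ⟨?_, n, hn1, by omega, fun m hm hnm => by exact_mod_cast hn3 m hm hnm⟩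
    have hb := bud_nonneg k
    have e1 := Nat.lt_floor_add_one ((1 - 1 / ((j : ℝ) + 2)) * bud k)
    have e2 : (1 - (1 - c) / 2) * bud k ≤ (1 - 1 / ((j : ℝ) + 2)) * bud k := mul_le_mul_of_nonneg_right (by linarith) hb
    linarith

/-- **Pintz's question in the models.** -/
theorem result :
    -- the models exist
    (∀ z : ℕ → ℕ, IsModel (prodMeasure (pr z)) (pr z) (trueSet (ι := ℕ))) ∧
    -- levels up to `(log x) ^ (1 + o(1))`: the question has a positive answer, and the exponent two is optimal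
    (∀ (Ω : Type) (_ : MeasurableSpace Ω) (μ : Measure Ω) (_ : IsProbabilityMeasure μ) (A : Ω → Set ℕ) (z : ℕ → ℕ),
      (∀ δ : ℝ, 0 < δ → ∀ᶠ k : ℕ in atTop, (z k : ℝ) ≤ (k : ℝ) ^ (1 + δ)) → IsModel μ (pr z) A →
        ∀ᵐ ω ∂μ, (A ω).Infinite ∧ Q1 (A ω) ∧ 1 ≤ LL (A ω)) ∧
    -- levels up to `(log x) ^ α`
    (∀ (Ω : Type) (_ : MeasurableSpace Ω) (μ : Measure Ω) (_ : IsProbabilityMeasure μ) (A : Ω → Set ℕ) (z : ℕ → ℕ) (α : ℝ),
      1 ≤ α → (∀ᶠ k : ℕ in atTop, (z k : ℝ) ≤ (k : ℝ) ^ α) → IsModel μ (pr z) A →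
        ∀ᵐ ω ∂μ, (A ω).Infinite ∧ 1 ≤ LL (A ω) ∧
          ∀ t : ℝ, 2 * α < t → ∀ᶠ n : ℕ in atTop, el (A ω) (n + 1) - el (A ω) n ≤ Real.log (el (A ω) n) ^ t) := by
  refine ⟨fun z => isModel (pr z) (pr_nonneg z) (pr_le_one z), ?_, ?_⟩
  · intro Ω _ μ _ A z hz hA
    have h1 : ∀ᵐ ω ∂μ, ∀ j : ℕ, (A ω).Infinite ∧ ∀ t : ℝ, 2 * (1 + 1 / ((j : ℝ) + 1)) < t →
        ∀ᶠ n : ℕ in atTop, el (A ω) (n + 1) - el (A ω) n ≤ Real.log (el (A ω) n) ^ t := by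
      rw [ae_all_iff]
      intro j
      have hj : 0 < 1 / ((j : ℝ) + 1) := by positivity
      exact levels hA (by linarith) (hz _ hj)
    filter_upwards [h1, long hA (show (1 : ℝ) ≤ 1 + 1 by norm_num) (hz 1 one_pos)] with ω hω hω2
    refine ⟨(hω 0).1, fun t ht => ⟨1, ?_⟩, hω2⟩
    obtain ⟨j, hj⟩ := exists_nat_gt (2 / (t - 2))
    have h2 : 2 * (1 + 1 / ((j : ℝ) + 1)) < t := by
      have h3 : 2 / ((j : ℝ) + 1) < t - 2 := by
        rw [div_lt_iff₀ (by positivity)]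
        rw [div_lt_iff₀ (by linarith)] at hj
        nlinarith
      have h4 : 2 * (1 + 1 / ((j : ℝ) + 1)) = 2 + 2 / ((j : ℝ) + 1) := by ring
      linarith
    filter_upwards [(hω j).2 t h2] with n hn
    rw [one_mul]
    exact hn
  · intro Ω _ μ _ A z α hα hz hA
    filter_upwards [levels hA hα hz, long hA hα hz] with ω h1 h2
    exact ⟨h1.1, h2, h1.2⟩

end Pool.Agent.Results.MP_7ba156_nt.LevelsUpToLogarithm
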